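import Mathlib

/-!
# Eight points in space can be separated by three planes

Elementary ingredients: the orientation determinant, affine functionals, and the key lemma that
produces a plane near the line through two points which halves four other points.
-/

set_option autoImplicit false

namespace Pool.Agent.Q274.EightPoints

open Finset

abbrev E := EuclideanSpace ℝ (Fin 3)

/-- orientation determinant of four points -/
def D (a b c q : E) : ℝ :=
  (b 0 - a 0) * ((c 1 - a 1) * (q 2 - a 2) - (c 2 - a 2) * (q 1 - a 1))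
  - (b 1 - a 1) * ((c 0 - a 0) * (q 2 - a 2) - (c 2 - a 2) * (q 0 - a 0))
  + (b 2 - a 2) * ((c 0 - a 0) * (q 1 - a 1) - (c 1 - a 1) * (q 0 - a 0))

/-- affine functionals in coordinates -/
def Aff (φ : E → ℝ) : Prop :=
  ∃ u v w t : ℝ, ∀ p : E, φ p = u * p 0 + v * p 1 + w * p 2 - t

theorem Aff.add {φ χ : E → ℝ} (h : Aff φ) (h' : Aff χ) : Aff (fun p => φ p + χ p) := by
  obtain ⟨u, v, w, t, h⟩ := h
  obtain ⟨u', v', w', t', h'⟩ := h'
  exact ⟨u + u', v + v', w + w', t + t', fun p => by simp only [h, h']; ring⟩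

theorem Aff.smul {φ : E → ℝ} (c : ℝ) (h : Aff φ) : Aff (fun p => c * φ p) := by
  obtain ⟨u, v, w, t, h⟩ := h
  exact ⟨c * u, c * v, c * w, c * t, fun p => by simp only [h]; ring⟩

theorem Aff.congr {φ χ : E → ℝ} (h : Aff φ) (e : ∀ p, χ p = φ p) : Aff χ := by
  obtain ⟨u, v, w, t, h⟩ := h
  exact ⟨u, v, w, t, fun p => by rw [e, h]⟩

theorem aff_D4 (a b c : E) : Aff (fun q => D a b c q) := by
  refine ⟨(b 1 - a 1) * (c 2 - a 2) - (b 2 - a 2) * (c 1 - a 1),
    (b 2 - a 2) * (c 0 - a 0) - (b 0 - a 0) * (c 2 - a 2),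
    (b 0 - a 0) * (c 1 - a 1) - (b 1 - a 1) * (c 0 - a 0),
    ((b 1 - a 1) * (c 2 - a 2) - (b 2 - a 2) * (c 1 - a 1)) * a 0 +
    ((b 2 - a 2) * (c 0 - a 0) - (b 0 - a 0) * (c 2 - a 2)) * a 1 +
    ((b 0 - a 0) * (c 1 - a 1) - (b 1 - a 1) * (c 0 - a 0)) * a 2, fun p => ?_⟩
  simp only [D]; ring

theorem D_swap34 (a b c d : E) : D a b d c = - D a b c d := by simp only [D]; ring
theorem D_swap14 (a b c d : E) : D d b c a = - D a b c d := by simp only [D]; ring
theorem D_swap24 (a b c d : E) : D a d c b = - D a b c d := by simp only [D]; ring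

theorem aff_D1 (b c d : E) : Aff (fun q => D q b c d) :=
  ((aff_D4 d b c).smul (-1)).congr fun p => by rw [D_swap14 d b c p]; ring

theorem aff_D2 (a c d : E) : Aff (fun q => D a q c d) :=
  ((aff_D4 a d c).smul (-1)).congr fun p => by rw [D_swap24 a d c p]; ring

theorem aff_D3 (a b d : E) : Aff (fun q => D a b q d) :=
  ((aff_D4 a b d).smul (-1)).congr fun p => by rw [D_swap34 a b d p]; ring

theorem D_self34 (a b c : E) : D a b c c = 0 := by simp only [D]; ring
theorem D_self12 (a b c : E) : D a a b c = 0 := by simp only [D]; ring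
theorem D_self13 (a b c : E) : D a b a c = 0 := by simp only [D]; ring
theorem D_self14 (a b c : E) : D a b c a = 0 := by simp only [D]; ring
theorem D_self23 (a b c : E) : D a b b c = 0 := by simp only [D]; ring
theorem D_self24 (a b c : E) : D a b c b = 0 := by simp only [D]; ring

/-- affine functional with prescribed values at three non-collinear points -/
theorem exists_aff (a b c d : E) (h : D a b c d ≠ 0) (r s t : ℝ) :
    ∃ χ, Aff χ ∧ χ a = r ∧ χ b = s ∧ χ c = t := by
  refine ⟨fun q => (r / D a b c d * D q b c d + s / D a b c d * D a q c d) +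
    t / D a b c d * D a b q d,
    (((aff_D1 b c d).smul _).add ((aff_D2 a c d).smul _)).add ((aff_D3 a b d).smul _), ?_, ?_, ?_⟩
  · simp only [D_self12, D_self13, mul_zero, add_zero]
    field_simp
  · simp only [D_self12, D_self23, mul_zero, add_zero, zero_add]
    field_simp
  · simp only [D_self13, D_self23, mul_zero, zero_add]
    field_simp

/-- small perturbations keep the nonzero signs on a finite set -/
theorem exists_perturb (S : Finset E) (φ χ : E → ℝ) :
    ∃ ε : ℝ, 0 < ε ∧ ∀ q ∈ S, φ q ≠ 0 → 0 < φ q * (φ q + ε * χ q) := by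
  classical
  induction S using Finset.induction_on with
  | empty => exact ⟨1, one_pos, by simp⟩
  | insert a S _ ih =>
    obtain ⟨ε, hε, h⟩ := ih
    by_cases ha : φ a = 0
    · refine ⟨ε, hε, fun q hq hq0 => ?_⟩
      rcases Finset.mem_insert.1 hq with rfl | hq
      · exact absurd ha hq0
      · exact h q hq hq0
    · have haa : 0 < φ a * φ a := mul_self_pos.2 ha
      have hpos : 0 < φ a * φ a / (2 * (|φ a * χ a| + 1)) := by positivity
      refine ⟨min ε (φ a * φ a / (2 * (|φ a * χ a| + 1))), lt_min hε hpos, fun q hq hq0 => ?_⟩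
      set δ := min ε (φ a * φ a / (2 * (|φ a * χ a| + 1))) with hδ
      have hδ0 : 0 < δ := lt_min hε hpos
      rcases Finset.mem_insert.1 hq with rfl | hq
      · have h1 : δ ≤ φ q * φ q / (2 * (|φ q * χ q| + 1)) := min_le_right _ _
        have h2 : δ * (2 * (|φ q * χ q| + 1)) ≤ φ q * φ q := by
          rwa [le_div_iff₀ (by positivity)] at h1
        have h3 : -|φ q * χ q| ≤ φ q * χ q := neg_abs_le _
        have h4 : 0 < φ q * φ q := mul_self_pos.2 hq0
        nlinarith [abs_nonneg (φ q * χ q)]
      · have h1 := h q hq hq0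
        have h2 : δ ≤ ε := min_le_left _ _
        have h4 : 0 < φ q * φ q := mul_self_pos.2 hq0
        -- affine in the parameter, positive at 0 and at ε
        have h5 : φ q * (φ q + δ * χ q) * ε =
            (ε - δ) * (φ q * φ q) + δ * (φ q * (φ q + ε * χ q)) := by ring
        have h6 : 0 < φ q * (φ q + δ * χ q) * ε := by
          rw [h5]
          have : 0 ≤ (ε - δ) * (φ q * φ q) := mul_nonneg (by linarith) h4.le
          have : 0 < δ * (φ q * (φ q + ε * χ q)) := mul_pos hδ0 h1
          linarith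
        exact (pos_iff_pos_of_mul_pos h6).2 hε

/-- **Key lemma.** Near the line through `a1, a3` there is a plane that separates `a1` from `a2`,
`a3` from `a4`, and halves the four points `b`. -/
theorem key (a1 a2 a3 a4 : E) (b : Fin 4 → E)
    (hb : ∀ i j, i ≠ j → D a1 a3 (b i) (b j) ≠ 0)
    (h2 : ∀ i, D a1 a3 (b i) a2 ≠ 0) (h4 : ∀ i, D a1 a3 (b i) a4 ≠ 0) :
    ∃ ψ, Aff ψ ∧ ψ a1 * ψ a2 < 0 ∧ ψ a3 * ψ a4 < 0 ∧ (∀ j, ψ (b j) ≠ 0) ∧
      (univ.filter (fun j => 0 < ψ (b j))).card = 2 := by
  classical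
  -- a point of `b` with one or two points on its positive side
  obtain ⟨i, hi⟩ : ∃ i, (univ.filter (fun j => 0 < D a1 a3 (b i) (b j))).card = 1 ∨
      (univ.filter (fun j => 0 < D a1 a3 (b i) (b j))).card = 2 := by
    by_contra hcon
    push Not at hcon
    have hall : ∀ i, (∀ j, ¬ 0 < D a1 a3 (b i) (b j)) ∨
        (∀ j, j ≠ i → 0 < D a1 a3 (b i) (b j)) := by
      intro i
      have hsub : (univ.filter (fun j => 0 < D a1 a3 (b i) (b j))) ⊆ univ.erase i := by
        intro j hj
        rw [Finset.mem_filter] at hj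
        rw [Finset.mem_erase]
        refine ⟨?_, Finset.mem_univ _⟩
        rintro rfl
        rw [D_self34] at hj
        exact lt_irrefl _ hj.2
      have hc3 : (univ.erase i : Finset (Fin 4)).card = 3 := by
        rw [Finset.card_erase_of_mem (Finset.mem_univ _)]; rfl
      have hle := Finset.card_le_card hsub
      rw [hc3] at hle
      have h1 := (hcon i).1
      have h2 := (hcon i).2
      have h3 : (univ.filter (fun j => 0 < D a1 a3 (b i) (b j))).card = 0 ∨
          (univ.filter (fun j => 0 < D a1 a3 (b i) (b j))).card = 3 := by omega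
      rcases h3 with h3 | h3
      · left
        intro j hj
        rw [Finset.card_eq_zero] at h3
        have : j ∈ (univ.filter (fun j => 0 < D a1 a3 (b i) (b j))) := by simp [hj]
        rw [h3] at this
        simp at this
      · right
        intro j hj
        have h5 := Finset.eq_of_subset_of_card_le hsub (by rw [hc3, h3])
        have : j ∈ (univ.filter (fun j => 0 < D a1 a3 (b i) (b j))) := by
          rw [h5]; simp [hj]
        exact (Finset.mem_filter.1 this).2
    have hno : ∀ i j, i ≠ j → ¬ ((∀ k, ¬ 0 < D a1 a3 (b i) (b k)) ∧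
        (∀ k, ¬ 0 < D a1 a3 (b j) (b k))) := by
      rintro i j hij ⟨h, h'⟩
      have h1 := h j
      have h2 := h' i
      rw [D_swap34 a1 a3 (b i) (b j)] at h2
      exact hb i j hij (by linarith)
    have hyes : ∀ i j, i ≠ j → ¬ ((∀ k, k ≠ i → 0 < D a1 a3 (b i) (b k)) ∧
        (∀ k, k ≠ j → 0 < D a1 a3 (b j) (b k))) := by
      rintro i j hij ⟨h, h'⟩
      have h1 := h j hij.symm
      have h2 := h' i hij
      rw [D_swap34 a1 a3 (b i) (b j)] at h2
      linarith
    rcases hall 0 with h0 | h0 <;> rcases hall 1 with h1 | h1 <;> rcases hall 2 with h2 | h2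
    · exact hno 0 1 (by decide) ⟨h0, h1⟩
    · exact hno 0 1 (by decide) ⟨h0, h1⟩
    · exact hno 0 2 (by decide) ⟨h0, h2⟩
    · exact hyes 1 2 (by decide) ⟨h1, h2⟩
    · exact hno 1 2 (by decide) ⟨h1, h2⟩
    · exact hyes 0 2 (by decide) ⟨h0, h2⟩
    · exact hyes 0 1 (by decide) ⟨h0, h1⟩
    · exact hyes 0 1 (by decide) ⟨h0, h1⟩
  obtain ⟨j', hj'⟩ : ∃ j', i ≠ j' := by
    fin_cases i
    · exact ⟨1, by decide⟩
    all_goals exact ⟨0, by decide⟩
  obtain ⟨χ, hχ, hχ1, hχ3, hχb⟩ := exists_aff a1 a3 (b i) (b j') (hb i j' hj')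
    (-(D a1 a3 (b i) a2)) (-(D a1 a3 (b i) a4))
    (if (univ.filter (fun j => 0 < D a1 a3 (b i) (b j))).card = 1 then 1 else -1)
  obtain ⟨ε, hε, hper⟩ := exists_perturb (insert a2 (insert a4 (univ.image b)))
    (fun q => D a1 a3 (b i) q) χ
  have hψb : ∀ j, j ≠ i → 0 < D a1 a3 (b i) (b j) * (D a1 a3 (b i) (b j) + ε * χ (b j)) :=
    fun j hj => hper (b j) (by simp) (hb i j hj.symm)
  have hψi : D a1 a3 (b i) (b i) + ε * χ (b i) =
      if (univ.filter (fun j => 0 < D a1 a3 (b i) (b j))).card = 1 then ε else -ε := by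
    rw [D_self34, hχb]
    split_ifs <;> ring
  refine ⟨fun q => D a1 a3 (b i) q + ε * χ q, (aff_D4 a1 a3 (b i)).add (hχ.smul ε), ?_, ?_, ?_, ?_⟩
  · have h := hper a2 (by simp) (h2 i)
    simp only at h ⊢
    rw [D_self14, hχ1]
    have : (0 + ε * -D a1 a3 (b i) a2) * (D a1 a3 (b i) a2 + ε * χ a2) =
      -(ε * (D a1 a3 (b i) a2 * (D a1 a3 (b i) a2 + ε * χ a2))) := by ring
    rw [this]
    have := mul_pos hε h
    linarith
  · have h := hper a4 (by simp) (h4 i)
    simp only at h ⊢
    rw [D_self24, hχ3]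
    have : (0 + ε * -D a1 a3 (b i) a4) * (D a1 a3 (b i) a4 + ε * χ a4) =
      -(ε * (D a1 a3 (b i) a4 * (D a1 a3 (b i) a4 + ε * χ a4))) := by ring
    rw [this]
    have := mul_pos hε h
    linarith
  · intro j
    by_cases hj : j = i
    · subst hj
      simp only
      rw [hψi]
      split_ifs
      · exact hε.ne'
      · exact (neg_neg_of_pos hε).ne
    · have := hψb j hj
      intro h0
      simp only at h0
      rw [h0] at this
      simp at this
  · rcases hi with hi | hi
    · have e : (univ.filter (fun j => 0 < D a1 a3 (b i) (b j) + ε * χ (b j))) =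
          insert i (univ.filter (fun j => 0 < D a1 a3 (b i) (b j))) := by
        ext j
        simp only [Finset.mem_filter, Finset.mem_univ, true_and, Finset.mem_insert]
        by_cases hj : j = i
        · subst hj
          rw [hψi, if_pos hi]
          simp [hε]
        · simp only [hj, false_or]
          exact (pos_iff_pos_of_mul_pos (hψb j hj)).symm
      rw [e, Finset.card_insert_of_notMem (by simp [D_self34]), hi]
    · have e : (univ.filter (fun j => 0 < D a1 a3 (b i) (b j) + ε * χ (b j))) =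
          (univ.filter (fun j => 0 < D a1 a3 (b i) (b j))) := by
        ext j
        simp only [Finset.mem_filter, Finset.mem_univ, true_and]
        by_cases hj : j = i
        · subst hj
          rw [hψi, if_neg (by omega), D_self34]
          simp [hε.le]
        · exact (pos_iff_pos_of_mul_pos (hψb j hj)).symm
      rw [e, hi]

end Pool.Agent.Q274.EightPoints
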