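import Mathlib
import Pool.Agent.Q274.EightPoints

/-!
# Eight points in space can be separated by three planes: assembling the planes
-/

set_option autoImplicit false

namespace Pool.Agent.Q274.EightPoints

open Finset

/-- exactly two values are `true` -/
def good (s : Fin 4 → Bool) : Prop := (univ.filter (fun j => s j = true)).card = 2

instance (s : Fin 4 → Bool) : Decidable (good s) := by unfold good; infer_instance

/-- the partner of `0` -/
def mt (s : Fin 4 → Bool) : Fin 4 := if s 0 = s 1 then 1 else if s 0 = s 2 then 2 else 3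

theorem comb1 : ∀ s : Fin 4 → Bool, s 0 ≠ s 1 → s 2 ≠ s 3 → good s ∧ mt s ≠ 1 := by decide
theorem comb2 : ∀ s : Fin 4 → Bool, s 0 ≠ s 2 → s 1 ≠ s 3 → good s ∧ mt s ≠ 2 := by decide
theorem comb3 : ∀ s : Fin 4 → Bool, s 0 ≠ s 3 → s 1 ≠ s 2 → good s ∧ mt s ≠ 3 := by decide

theorem mt_cases : ∀ s : Fin 4 → Bool, mt s = 1 ∨ mt s = 2 ∨ mt s = 3 := by decide

theorem comb4' : ∀ s s' : Fin 4 → Bool, (good s ∧ good s' ∧ mt s ≠ mt s') →
    ∀ i j, (s i = s j ∧ s' i = s' j) → i = j := by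
  unfold good mt
  decide +kernel

theorem comb4 (s s' : Fin 4 → Bool) (h : good s) (h' : good s') (hm : mt s ≠ mt s')
    (i j : Fin 4) (e : s i = s j) (e' : s' i = s' j) : i = j :=
  comb4' s s' ⟨h, h', hm⟩ i j ⟨e, e'⟩

theorem four_cover : ∀ i1 i2 i3 i4 : Fin 4, i1 ≠ i2 → i1 ≠ i3 → i1 ≠ i4 → i2 ≠ i3 → i2 ≠ i4 →
    i3 ≠ i4 → ∀ i, i = i1 ∨ i = i2 ∨ i = i3 ∨ i = i4 := by decide

/-- the pair of sign functions `(s, r)` is realised by a plane -/
def Feas (p : Fin 4 ⊕ Fin 4 → E) (s r : Fin 4 → Bool) : Prop :=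
  ∃ ψ, Aff ψ ∧ (∀ i, ψ (p i) ≠ 0) ∧ (∀ i, s i = true ↔ 0 < ψ (p (.inl i))) ∧
    (∀ i, r i = true ↔ 0 < ψ (p (.inr i))) ∧ good s ∧ good r

theorem Feas.swap {p : Fin 4 ⊕ Fin 4 → E} {s r : Fin 4 → Bool}
    (h : Feas (fun i => p i.swap) s r) : Feas p r s := by
  obtain ⟨ψ, h1, h2, h3, h4, h5, h6⟩ := h
  exact ⟨ψ, h1, fun i => by simpa using h2 i.swap, h4, h3, h6, h5⟩

theorem feas_key (p : Fin 4 ⊕ Fin 4 → E)
    (hp : ∀ i j k l, i ≠ j → i ≠ k → i ≠ l → j ≠ k → j ≠ l → k ≠ l →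
      D (p i) (p j) (p k) (p l) ≠ 0)
    (i1 i2 i3 i4 : Fin 4) (h12 : i1 ≠ i2) (h13 : i1 ≠ i3) (h14 : i1 ≠ i4) (h23 : i2 ≠ i3)
    (h24 : i2 ≠ i4) (h34 : i3 ≠ i4)
    (hgood : ∀ s : Fin 4 → Bool, s i1 ≠ s i2 → s i3 ≠ s i4 → good s) :
    ∃ s r, Feas p s r ∧ s i1 ≠ s i2 ∧ s i3 ≠ s i4 := by
  classical
  obtain ⟨ψ, hA, h1, h2, h3, h4⟩ := key (p (.inl i1)) (p (.inl i2)) (p (.inl i3)) (p (.inl i4))
    (fun j => p (.inr j))
    (fun i j hij => hp _ _ _ _ (by simpa using h13) (by simp) (by simp) (by simp) (by simp)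
      (by simpa using hij))
    (fun i => hp _ _ _ _ (by simpa using h13) (by simp) (by simpa using h12) (by simp)
      (by simpa using h23.symm) (by simp))
    (fun i => hp _ _ _ _ (by simpa using h13) (by simp) (by simpa using h14) (by simp)
      (by simpa using h34) (by simp))
  have hne : ∀ i : Fin 4, ψ (p (.inl i)) ≠ 0 := by
    have hcov := four_cover i1 i2 i3 i4 h12 h13 h14 h23 h24 h34
    intro i
    rcases hcov i with rfl | rfl | rfl | rfl
    · exact fun h => by rw [h] at h1; simp at h1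
    · exact fun h => by rw [h] at h1; simp at h1
    · exact fun h => by rw [h] at h2; simp at h2
    · exact fun h => by rw [h] at h2; simp at h2
  have hd : ∀ x y : ℝ, x * y < 0 → decide (0 < x) ≠ decide (0 < y) := by
    intro x y hxy h
    rw [decide_eq_decide] at h
    by_cases hx : 0 < x
    · have hy := h.1 hx
      nlinarith
    · have hy : ¬ 0 < y := fun hy => hx (h.2 hy)
      nlinarith [not_lt.1 hx, not_lt.1 hy, mul_nonneg_of_nonpos_of_nonpos (not_lt.1 hx) (not_lt.1 hy)]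
  refine ⟨fun i => decide (0 < ψ (p (.inl i))), fun i => decide (0 < ψ (p (.inr i))),
    ⟨ψ, hA, ?_, fun i => by simp, fun i => by simp, hgood _ (hd _ _ h1) (hd _ _ h2), ?_⟩,
    hd _ _ h1, hd _ _ h2⟩
  · rintro (i | i)
    · exact hne i
    · exact h3 i
  · unfold good
    simpa using h4

theorem feasA (p : Fin 4 ⊕ Fin 4 → E)
    (hp : ∀ i j k l, i ≠ j → i ≠ k → i ≠ l → j ≠ k → j ≠ l → k ≠ l →
      D (p i) (p j) (p k) (p l) ≠ 0) (m : Fin 4) (hm : m = 1 ∨ m = 2 ∨ m = 3) :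
    ∃ s r, Feas p s r ∧ mt s ≠ m := by
  rcases hm with rfl | rfl | rfl
  · obtain ⟨s, r, h, h1, h2⟩ := feas_key p hp 0 1 2 3 (by decide) (by decide) (by decide)
      (by decide) (by decide) (by decide) (fun s h1 h2 => (comb1 s h1 h2).1)
    exact ⟨s, r, h, (comb1 s h1 h2).2⟩
  · obtain ⟨s, r, h, h1, h2⟩ := feas_key p hp 0 2 1 3 (by decide) (by decide) (by decide)
      (by decide) (by decide) (by decide) (fun s h1 h2 => (comb2 s h1 h2).1)
    exact ⟨s, r, h, (comb2 s h1 h2).2⟩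
  · obtain ⟨s, r, h, h1, h2⟩ := feas_key p hp 0 3 1 2 (by decide) (by decide) (by decide)
      (by decide) (by decide) (by decide) (fun s h1 h2 => (comb3 s h1 h2).1)
    exact ⟨s, r, h, (comb3 s h1 h2).2⟩

theorem feasB (p : Fin 4 ⊕ Fin 4 → E)
    (hp : ∀ i j k l, i ≠ j → i ≠ k → i ≠ l → j ≠ k → j ≠ l → k ≠ l →
      D (p i) (p j) (p k) (p l) ≠ 0) (m : Fin 4) (hm : m = 1 ∨ m = 2 ∨ m = 3) :
    ∃ s r, Feas p s r ∧ mt r ≠ m := by
  have hsw : Function.Injective (Sum.swap : Fin 4 ⊕ Fin 4 → Fin 4 ⊕ Fin 4) :=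
    Sum.swap_leftInverse.injective
  obtain ⟨s, r, h, h'⟩ := feasA (fun i => p i.swap)
    (fun i j k l h1 h2 h3 h4 h5 h6 => hp _ _ _ _ (hsw.ne h1) (hsw.ne h2) (hsw.ne h3) (hsw.ne h4)
      (hsw.ne h5) (hsw.ne h6)) m hm
  exact ⟨r, s, h.swap, h'⟩

/-- two planes whose matchings differ on both sides -/
theorem two_planes (p : Fin 4 ⊕ Fin 4 → E)
    (hp : ∀ i j k l, i ≠ j → i ≠ k → i ≠ l → j ≠ k → j ≠ l → k ≠ l →
      D (p i) (p j) (p k) (p l) ≠ 0) :
    ∃ s r s' r', Feas p s r ∧ Feas p s' r' ∧ mt s ≠ mt s' ∧ mt r ≠ mt r' := by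
  obtain ⟨s1, r1, h1, -⟩ := feasA p hp 1 (Or.inl rfl)
  obtain ⟨s2, r2, h2, e2⟩ := feasA p hp (mt s1) (mt_cases s1)
  by_cases e : mt r2 = mt r1
  · obtain ⟨s3, r3, h3, e3⟩ := feasB p hp (mt r1) (mt_cases r1)
    by_cases e' : mt s3 = mt s1
    · exact ⟨s2, r2, s3, r3, h2, h3, by rw [e']; exact e2, by rw [e]; exact e3.symm⟩
    · exact ⟨s3, r3, s1, r1, h3, h1, e', e3⟩
  · exact ⟨s2, r2, s1, r1, h2, h1, e2, e⟩

/-- a generic affine functional -/
theorem exists_generic (P : Finset E) :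
    ∃ f, Aff f ∧ ∀ p ∈ P, ∀ q ∈ P, p ≠ q → f p ≠ f q := by
  classical
  have hQ : (∏ pq ∈ P.offDiag, (Polynomial.C (pq.1 0 - pq.2 0) +
      Polynomial.C (pq.1 1 - pq.2 1) * Polynomial.X +
      Polynomial.C (pq.1 2 - pq.2 2) * Polynomial.X ^ 2 : Polynomial ℝ)) ≠ 0 := by
    rw [Finset.prod_ne_zero_iff]
    rintro ⟨a, b⟩ hab h
    rw [Finset.mem_offDiag] at hab
    apply hab.2.2
    have h0 := congrArg (fun Q => Polynomial.coeff Q 0) h
    have h1 := congrArg (fun Q => Polynomial.coeff Q 1) h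
    have h2 := congrArg (fun Q => Polynomial.coeff Q 2) h
    simp only [Polynomial.coeff_add, Polynomial.coeff_C_mul, Polynomial.coeff_X_pow,
      Polynomial.coeff_X, Polynomial.coeff_C, Polynomial.coeff_zero] at h0 h1 h2
    norm_num at h0 h1 h2
    ext i
    fin_cases i
    · simpa using sub_eq_zero.1 h0
    · simpa using sub_eq_zero.1 h1
    · simpa using sub_eq_zero.1 h2
  by_contra hcon
  push Not at hcon
  apply hQ
  apply Polynomial.funext
  intro t
  rw [Polynomial.eval_zero, Polynomial.eval_prod]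
  obtain ⟨a, ha, b, hb, hab, h⟩ := hcon (fun p => 1 * p 0 + t * p 1 + t ^ 2 * p 2 - 0)
    ⟨1, t, t ^ 2, 0, fun p => rfl⟩
  refine Finset.prod_eq_zero (i := (a, b)) (by simp [ha, hb, hab]) ?_
  simp only [Polynomial.eval_add, Polynomial.eval_mul, Polynomial.eval_C, Polynomial.eval_X,
    Polynomial.eval_pow]
  simp only at h
  linarith

/-- a plane splitting eight points `4 | 4` -/
theorem exists_split (P : Finset E) (hP : P.card = 8) :
    ∃ (p : Fin 4 ⊕ Fin 4 → E) (ψ : E → ℝ), Function.Injective p ∧ (∀ i, p i ∈ P) ∧ Aff ψ ∧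
      (∀ i, ψ (p (.inl i)) < 0) ∧ (∀ i, 0 < ψ (p (.inr i))) := by
  classical
  obtain ⟨f, hf, hinj⟩ := exists_generic P
  have hV : (P.image f).card = 8 := by
    rw [Finset.card_image_of_injOn, hP]
    intro a ha b hb hab
    by_contra hne
    exact hinj a ha b hb hne hab
  let e := (P.image f).orderEmbOfFin hV
  have hmem : ∀ i, ∃ q ∈ P, f q = e i := fun i =>
    Finset.mem_image.1 ((P.image f).orderEmbOfFin_mem hV i)
  choose g hgP hge using hmem
  have hlt : ∀ i j, i < j → f (g i) < f (g j) := fun i j hij => by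
    rw [hge, hge]; exact e.strictMono hij
  have hle : ∀ i j, i ≤ j → f (g i) ≤ f (g j) := fun i j hij => by
    rw [hge, hge]; exact e.monotone hij
  have hginj : Function.Injective g := by
    intro i j hij
    by_contra hne
    rcases lt_or_gt_of_ne hne with h | h
    · have := hlt i j h; rw [hij] at this; exact lt_irrefl _ this
    · have := hlt j i h; rw [hij] at this; exact lt_irrefl _ this
  have h34 := hlt 3 4 (by decide)
  obtain ⟨u, v, w, t, hf'⟩ := hf
  refine ⟨fun i => g (finSumFinEquiv i), fun q => f q - (f (g 3) + f (g 4)) / 2,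
    fun i j hij => finSumFinEquiv.injective (hginj hij), fun i => hgP _,
    ⟨u, v, w, t + (f (g 3) + f (g 4)) / 2, fun q => by simp only [hf' q]; ring⟩, ?_, ?_⟩
  · intro i
    have h1 : finSumFinEquiv (Sum.inl i : Fin 4 ⊕ Fin 4) ≤ 3 := by
      rw [finSumFinEquiv_apply_left, Fin.le_def]
      simp only [Fin.val_castAdd]
      have : ((3 : Fin (4+4)) : ℕ) = 3 := rfl
      omega
    have := hle _ _ h1
    simp only
    linarith
  · intro i
    have h1 : 4 ≤ finSumFinEquiv (Sum.inr i : Fin 4 ⊕ Fin 4) := by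
      rw [finSumFinEquiv_apply_right, Fin.le_def]
      simp only [Fin.val_natAdd]
      have : ((4 : Fin (4+4)) : ℕ) = 4 := rfl
      omega
    have := hle _ _ h1
    simp only
    linarith

theorem inner_eq (u p : E) : inner ℝ u p = u 0 * p 0 + u 1 * p 1 + u 2 * p 2 := by
  rw [PiLp.inner_apply, Fin.sum_univ_three]
  simp [mul_comm]

/-- general position in terms of the determinant -/
theorem D_ne_zero (P : Finset E)
    (hgen : ∀ (v : E) (c : ℝ), v ≠ 0 → (P.filter (fun p => inner ℝ v p = c)).card ≤ 3)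
    (a b c d : E) (ha : a ∈ P) (hb : b ∈ P) (hc : c ∈ P) (hd : d ∈ P) (hab : a ≠ b) (hac : a ≠ c)
    (had : a ≠ d) (hbc : b ≠ c) (hbd : b ≠ d) (hcd : c ≠ d) : D a b c d ≠ 0 := by
  classical
  intro h0
  let M : Matrix (Fin 3) (Fin 3) ℝ := !![b 0 - a 0, b 1 - a 1, b 2 - a 2;
    c 0 - a 0, c 1 - a 1, c 2 - a 2; d 0 - a 0, d 1 - a 1, d 2 - a 2]
  have hdet : M.det = 0 := by
    rw [← h0, Matrix.det_fin_three]
    simp [M, D]
    ring
  obtain ⟨v, hv, hMv⟩ := Matrix.exists_mulVec_eq_zero_iff.2 hdet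
  have hv' : (WithLp.toLp 2 v : E) ≠ 0 := by
    intro h
    apply hv
    ext i
    have := congrArg (fun w : E => w i) h
    simpa using this
  have e1 := congrFun hMv 0
  have e2 := congrFun hMv 1
  have e3 := congrFun hMv 2
  simp [M, Matrix.mulVec, dotProduct, Fin.sum_univ_three] at e1 e2 e3
  have hle := hgen (WithLp.toLp 2 v) (inner ℝ (WithLp.toLp 2 v : E) a) hv'
  have hsub : ({a, b, c, d} : Finset E) ⊆
      P.filter (fun p => inner ℝ (WithLp.toLp 2 v : E) p = inner ℝ (WithLp.toLp 2 v : E) a) := by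
    intro q hq
    simp only [Finset.mem_insert, Finset.mem_singleton] at hq
    rw [Finset.mem_filter]
    rcases hq with rfl | rfl | rfl | rfl
    · exact ⟨ha, rfl⟩
    · refine ⟨hb, ?_⟩
      rw [inner_eq, inner_eq]
      simp only
      linarith
    · refine ⟨hc, ?_⟩
      rw [inner_eq, inner_eq]
      simp only
      linarith
    · refine ⟨hd, ?_⟩
      rw [inner_eq, inner_eq]
      simp only
      linarith
  have hcard : ({a, b, c, d} : Finset E).card = 4 := by
    rw [Finset.card_insert_of_notMem (by simp [hab, hac, had]),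
      Finset.card_insert_of_notMem (by simp [hbc, hbd]),
      Finset.card_insert_of_notMem (by simp [hcd]), Finset.card_singleton]
  have := Finset.card_le_card hsub
  omega

/-- three affine functionals separating the eight points -/
theorem three_functionals (P : Finset E) (hP : P.card = 8)
    (hgen : ∀ (v : E) (c : ℝ), v ≠ 0 → (P.filter (fun p => inner ℝ v p = c)).card ≤ 3) :
    ∃ ψ : Fin 3 → E → ℝ, (∀ k, Aff (ψ k)) ∧ (∀ k, ∀ p ∈ P, ψ k p ≠ 0) ∧
      ∀ s : Fin 3 → Bool, ∃! p, p ∈ P ∧ ∀ k, (0 < ψ k p ↔ s k = true) := by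
  classical
  obtain ⟨p, ψ1, hpinj, hpP, hA1, hneg, hpos⟩ := exists_split P hP
  have himg : univ.image p = P := by
    apply Finset.eq_of_subset_of_card_le
    · intro q hq
      obtain ⟨i, -, rfl⟩ := Finset.mem_image.1 hq
      exact hpP i
    · rw [Finset.card_image_of_injective _ hpinj, hP]
      simp
  obtain ⟨s, r, s', r', ⟨ψ2, hA2, hn2, hs, hr, hgs, hgr⟩, ⟨ψ3, hA3, hn3, hs', hr', hgs', hgr'⟩,
    hms, hmr⟩ := two_planes p (fun i j k l h1 h2 h3 h4 h5 h6 =>
      D_ne_zero P hgen _ _ _ _ (hpP _) (hpP _) (hpP _) (hpP _) (hpinj.ne h1) (hpinj.ne h2)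
        (hpinj.ne h3) (hpinj.ne h4) (hpinj.ne h5) (hpinj.ne h6))
  let ψ : Fin 3 → E → ℝ := ![ψ1, ψ2, ψ3]
  let F : Fin 4 ⊕ Fin 4 → (Fin 3 → Bool) := fun i k => decide (0 < ψ k (p i))
  have hFinj : Function.Injective F := by
    intro i j hij
    have h0 : (0 < ψ1 (p i)) ↔ (0 < ψ1 (p j)) := by
      have := congrFun hij 0
      simpa [F, ψ] using this
    have h1 : (0 < ψ2 (p i)) ↔ (0 < ψ2 (p j)) := by
      have := congrFun hij 1
      simpa [F, ψ] using this
    have h2 : (0 < ψ3 (p i)) ↔ (0 < ψ3 (p j)) := by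
      have := congrFun hij 2
      simpa [F, ψ] using this
    rcases i with i | i <;> rcases j with j | j
    · rw [← hs, ← hs] at h1
      rw [← hs', ← hs'] at h2
      rw [comb4 s s' hgs hgs' hms i j (Bool.eq_iff_iff.2 h1) (Bool.eq_iff_iff.2 h2)]
    · exact absurd (h0.2 (hpos j)) (not_lt.2 (hneg i).le)
    · exact absurd (h0.1 (hpos i)) (not_lt.2 (hneg j).le)
    · rw [← hr, ← hr] at h1
      rw [← hr', ← hr'] at h2
      rw [comb4 r r' hgr hgr' hmr i j (Bool.eq_iff_iff.2 h1) (Bool.eq_iff_iff.2 h2)]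
  have hFbij : Function.Bijective F := by
    rw [Fintype.bijective_iff_injective_and_card]
    exact ⟨hFinj, by simp⟩
  refine ⟨ψ, ?_, ?_, ?_⟩
  · intro k
    fin_cases k
    · exact hA1
    · exact hA2
    · exact hA3
  · intro k q hq
    rw [← himg] at hq
    obtain ⟨i, -, rfl⟩ := Finset.mem_image.1 hq
    fin_cases k
    · rcases i with i | i
      · exact (hneg i).ne
      · exact (hpos i).ne'
    · exact hn2 i
    · exact hn3 i
  · intro σ
    obtain ⟨i, hi⟩ := hFbij.2 σ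
    refine ⟨p i, ⟨hpP i, fun k => ?_⟩, ?_⟩
    · have := congrFun hi k
      simp only [F] at this
      rw [← this]
      simp
    · rintro q ⟨hq, hqσ⟩
      rw [← himg] at hq
      obtain ⟨j, -, rfl⟩ := Finset.mem_image.1 hq
      have : F j = F i := by
        rw [hi]
        funext k
        have := hqσ k
        simp only [F]
        rw [Bool.eq_iff_iff, decide_eq_true_iff]
        exact this
      rw [hFinj this]

end Pool.Agent.Q274.EightPoints
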